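import Pool.Agent.H262R3.Lk.Stubs
import Pool.Agent.Helper112.Lp.MertensLog

/-! Lower bound for the principal prime series, from the first theorem of Mertens. -/

set_option autoImplicit false

open Finset
open Pool.Agent.H262R3.Lk
open Pool.Agent.H318R2.Cr (Rgh V)

namespace Pool.Agent.W440.MH

theorem b2 (hSUM : St_SUM) : St_B2 := by
  obtain ⟨C, hC0, hC⟩ := Pool.Agent.Helper112.LP.mertens_log
  refine ⟨Real.exp (-3), 1 / (1 + 2 * C), Real.exp_pos _, by positivity, ?_, ?_⟩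
  · rw [div_le_one (by positivity)]; linarith
  intro z σ hz hσ hσz
  have hz1 : 1 ≤ Real.log z := by
    have h1 : Real.exp 1 ≤ z := by
      have h2 : (32 : ℝ) ≤ z := by exact_mod_cast hz
      have h3 := Real.exp_one_lt_d9
      linarith
    have h4 := Real.log_le_log (Real.exp_pos 1) h1
    rwa [Real.log_exp] at h4
  have hσC : σ * (1 + 2 * C) ≤ 1 := by
    have h1 : σ ≤ 1 / (1 + 2 * C) := by
      calc σ = σ * 1 := (mul_one σ).symm
        _ ≤ σ * Real.log z := mul_le_mul_of_nonneg_left hz1 hσ.le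
        _ ≤ _ := hσz
    rwa [le_div_iff₀ (by positivity)] at h1
  have hσ1 : σ ≤ 1 := by nlinarith
  have hinv1 : 1 ≤ 1 / σ := by rw [le_div_iff₀ hσ]; linarith
  -- the two ends
  set N1 : ℕ := ⌊Real.exp (1 / σ)⌋₊ with hN1
  set N2 : ℕ := ⌊Real.exp (3 / σ)⌋₊ with hN2
  have he1 : (1 : ℝ) ≤ Real.exp (1 / σ) := Real.one_le_exp (by positivity)
  have hN1pos : 1 ≤ N1 := by
    rw [hN1, Nat.one_le_floor_iff]; exact he1
  have h13 : Real.exp (1 / σ) ≤ Real.exp (3 / σ) := by
    apply Real.exp_le_exp.mpr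
    exact div_le_div_of_nonneg_right (by norm_num) hσ.le
  have hN12 : N1 ≤ N2 := Nat.floor_le_floor h13
  have hN2pos : 1 ≤ N2 := hN1pos.trans hN12
  have hlogN1 : Real.log N1 ≤ 1 / σ := by
    have h1 : (N1 : ℝ) ≤ Real.exp (1 / σ) := Nat.floor_le (Real.exp_pos _).le
    have h2 := Real.log_le_log (by exact_mod_cast hN1pos) h1
    rwa [Real.log_exp] at h2
  have hlogN2 : 3 / σ - 1 ≤ Real.log N2 := by
    have h1 : Real.exp (3 / σ) < N2 + 1 := Nat.lt_floor_add_one _
    have h2 : (1 : ℝ) ≤ N2 := by exact_mod_cast hN2pos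
    have h3 : Real.exp (3 / σ - 1) ≤ N2 := by
      rw [Real.exp_sub]
      rw [div_le_iff₀ (Real.exp_pos 1)]
      have h4 := Real.add_one_le_exp (1 : ℝ)
      nlinarith
    have h5 := Real.log_le_log (Real.exp_pos _) h3
    rwa [Real.log_exp] at h5
  -- the primes between them
  set F : Finset ℕ := (Ioc N1 N2).filter Nat.Prime with hF
  have hsum : ∑ q ∈ F, Real.log q / q =
      ∑ q ∈ (Icc 1 N2).filter Nat.Prime, Real.log q / q -
        ∑ q ∈ (Icc 1 N1).filter Nat.Prime, Real.log q / q := by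
    have hdis : Disjoint ((Icc 1 N1).filter Nat.Prime) F := by
      rw [Finset.disjoint_left]
      intro a ha hb
      simp only [hF, mem_filter, mem_Icc, mem_Ioc] at ha hb
      omega
    have hun : (Icc 1 N2).filter Nat.Prime = (Icc 1 N1).filter Nat.Prime ∪ F := by
      ext a
      simp only [hF, mem_union, mem_filter, mem_Icc, mem_Ioc]
      constructor
      · rintro ⟨⟨h1, h2⟩, h3⟩
        by_cases h : a ≤ N1
        · exact Or.inl ⟨⟨h1, h⟩, h3⟩
        · exact Or.inr ⟨⟨by omega, h2⟩, h3⟩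
      · rintro (⟨⟨h1, h2⟩, h3⟩ | ⟨⟨h1, h2⟩, h3⟩)
        · exact ⟨⟨h1, by omega⟩, h3⟩
        · exact ⟨⟨by omega, h2⟩, h3⟩
    rw [hun, sum_union hdis]; ring
  have hlow : 1 / σ ≤ ∑ q ∈ F, Real.log q / q := by
    have h1 := (abs_le.mp (hC N2 hN2pos)).1
    have h2 := (abs_le.mp (hC N1 hN1pos)).2
    have h3 : 3 / σ = 1 / σ + 1 / σ + 1 / σ := by ring
    have h4 : 1 + 2 * C ≤ 1 / σ := by rw [le_div_iff₀ hσ]; linarith
    rw [hsum]
    linarith
  have hS := (hSUM z 1 1 2 σ hσ).2.1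
  have hnn : ∀ n, 0 ≤ bj z 1 1 2 σ n := by
    intro n
    unfold bj
    split_ifs
    · exact mul_nonneg ArithmeticFunction.vonMangoldt_nonneg (by positivity)
    · exact le_rfl
  have hterm : ∀ q ∈ F, Real.exp (-3) / σ ^ 2 * (Real.log q / q) ≤ bj z 1 1 2 σ q := by
    intro q hq
    simp only [hF, mem_filter, mem_Ioc] at hq
    obtain ⟨⟨hq1, hq2⟩, hqp⟩ := hq
    have hq0 : (0 : ℝ) < q := by exact_mod_cast hqp.pos
    have hqe : Real.exp (1 / σ) < q := by
      rw [hN1] at hq1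
      exact (Nat.floor_lt (Real.exp_pos _).le).mp hq1
    have hqe3 : (q : ℝ) ≤ Real.exp (3 / σ) := by
      have h1 : (N2 : ℝ) ≤ Real.exp (3 / σ) := Nat.floor_le (Real.exp_pos _).le
      exact le_trans (by exact_mod_cast hq2) h1
    have hlq : 1 / σ ≤ Real.log q := by
      have h2 := Real.log_le_log (Real.exp_pos _) hqe.le
      rwa [Real.log_exp] at h2
    have hlq3 : Real.log q ≤ 3 / σ := by
      have h2 := Real.log_le_log hq0 hqe3
      rwa [Real.log_exp] at h2
    have hzq : z < q := by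
      have h1 : Real.log z ≤ 1 / σ := by
        rw [le_div_iff₀ hσ, mul_comm]
        refine hσz.trans ?_
        rw [div_le_one (by positivity)]; linarith
      have h2 : (z : ℝ) ≤ Real.exp (1 / σ) := by
        have h3 := Real.exp_le_exp.mpr h1
        rwa [Real.exp_log (by positivity)] at h3
      exact_mod_cast lt_of_le_of_lt h2 hqe
    have hR : Rgh z q := by
      intro p hp hpz hpq
      rw [Nat.prime_dvd_prime_iff_eq hp hqp] at hpq
      omega
    unfold bj
    rw [if_pos ⟨hR, Nat.modEq_one⟩, ArithmeticFunction.vonMangoldt_apply_prime hqp]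
    have hpow : (q : ℝ) ^ (1 + σ) ≤ q * Real.exp 3 := by
      rw [Real.rpow_add hq0, Real.rpow_one]
      apply mul_le_mul_of_nonneg_left _ hq0.le
      rw [Real.rpow_def_of_pos hq0]
      apply Real.exp_le_exp.mpr
      calc Real.log q * σ ≤ 3 / σ * σ := mul_le_mul_of_nonneg_right hlq3 hσ.le
        _ = 3 := by field_simp
    have hlq0 : 0 ≤ Real.log q := le_trans (by positivity) hlq
    have hsq : (1 / σ) ^ 2 ≤ Real.log q ^ 2 := pow_le_pow_left₀ (by positivity) hlq 2
    calc Real.exp (-3) / σ ^ 2 * (Real.log q / q)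
        = Real.log q * ((1 / σ) ^ 2 / (q * Real.exp 3)) := by
          rw [Real.exp_neg]; field_simp
      _ ≤ Real.log q * (Real.log q ^ 2 / (q : ℝ) ^ (1 + σ)) := by
          apply mul_le_mul_of_nonneg_left _ hlq0
          exact div_le_div₀ (by positivity) hsq (by positivity) hpow
  calc Real.exp (-3) / σ ^ 3 = Real.exp (-3) / σ ^ 2 * (1 / σ) := by field_simp
    _ ≤ Real.exp (-3) / σ ^ 2 * ∑ q ∈ F, Real.log q / q :=
        mul_le_mul_of_nonneg_left hlow (by positivity)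
    _ = ∑ q ∈ F, Real.exp (-3) / σ ^ 2 * (Real.log q / q) := mul_sum _ _ _
    _ ≤ ∑ q ∈ F, bj z 1 1 2 σ q := sum_le_sum hterm
    _ ≤ Bj z 1 1 2 σ := hS.sum_le_tsum F fun n _ => hnn n

end Pool.Agent.W440.MH
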